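import Pool.Agent.U166.HD.Main

/-!
# Dense lattices: the fixed vectors of finite 2-groups

`L = A ℤⁿ` is a lattice, `inv A = λ₁(L)² / det(L)^(2/n)` its Hermite invariant, `hermite n = γ_n`.

In the lattices whose Hermite invariant is at least `(limsup γ_m / m - o(1)) n` (they exist for infinitely
many `n`; if the limit of `γ_n / n` exists, they are all the asymptotically optimal lattices) the
dimension of the space of the vectors fixed by a finite 2-group `G` of automorphisms is `o(n)` or
`n / 2 ^ k + o(n)` for a natural number `k`. More generally this holds for the common eigenvectors of `G`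
for every character of `G` with values `± 1`. The error depends neither on `G` nor on its order.
If the dimension `m` of one of these spaces is not `o(n)`, then `γ_m ≥ (limsup γ_i / i - o(1)) m`: the
lattice of the fixed vectors is itself close to the upper limit in its dimension.

Proof. Let `M` be a normal subgroup of `G` whose elements move `o(n)` dimensions, and `z` an element of
order 2 of the centre of `G / M`. The lattice of the vectors fixed by `M` is still close to the upper
limit, and if `z` moves `o(n)` dimensions there, then the same is true for the subgroup generated by `M`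
and `z` (the sublattice of index at most `2 ^ b` splits orthogonally, and there is no loss). If `z` halves
the dimension, then the sublattice of the vectors fixed by `z` is close to the upper limit in its
dimension, since the inequality between the index of the splitting and the entropy is an equality up to
the exponent `o(n)`. Induction.
-/

set_option autoImplicit false

open Filter Matrix Topology

namespace Pool.Agent.Results.MP_ef2672_gt.FixedVectorsOfTwoGroups

open Pool.Agent.H160R3.Herm (hermite)
open Pool.Agent.R834.HA (inv IsAuto)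

/-- the upper limit of `γ_n / n` -/
noncomputable def upper : ℝ := limsup (fun n : ℕ => hermite n / n) atTop

/-- the common eigenvectors `x` of the matrices `ρ g` with `ρ g x = χ g x`; for `χ = 1` these are the
vectors fixed by all `ρ g` -/
def eigen {n : ℕ} {G : Type} [Group G] (ρ : G →* Matrix (Fin n) (Fin n) ℝ) (χ : G →* ℤˣ) :
    Submodule ℝ (Fin n → ℝ) where
  carrier := {x | ∀ g, (ρ g).mulVec x = ((χ g : ℤ) : ℝ) • x}
  add_mem' := by
    intro x y hx hy g
    rw [mulVec_add, hx g, hy g, smul_add]
  zero_mem' := by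
    intro g
    rw [mulVec_zero, smul_zero]
  smul_mem' := by
    intro c x hx g
    rw [mulVec_smul, hx g, smul_comm]

/-- For every finite 2-group `G` of automorphisms of the lattice `A ℤⁿ` and every character of `G` with
values `± 1` the dimension `m` of the space of the common eigenvectors is at most `δ n`, or it differs
from some `n / 2 ^ k` by at most `δ n` and moreover `γ_m ≥ (upper - δ) m`. -/
def PowersOfTwo {n : ℕ} (A : Matrix (Fin n) (Fin n) ℝ) (δ : ℝ) : Prop :=
  ∀ (G : Type) [Group G] [Finite G], IsPGroup 2 G → ∀ ρ : G →* Matrix (Fin n) (Fin n) ℝ,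
    (∀ g, IsAuto A (ρ g)) → ∀ χ : G →* ℤˣ,
      (Module.finrank ℝ (eigen ρ χ) : ℝ) ≤ δ * n ∨
      ((∃ k : ℕ, |(Module.finrank ℝ (eigen ρ χ) : ℝ) - n / 2 ^ k| ≤ δ * n) ∧
        (upper - δ) * Module.finrank ℝ (eigen ρ χ) ≤ hermite (Module.finrank ℝ (eigen ρ χ)))

open Pool.Agent.R834.HA Pool.Agent.U166.HC Pool.Agent.U166.HD in
theorem result :
    -- lattices with an invariant close to the upper limit
    (∀ δ : ℝ, 0 < δ → ∃ η : ℝ, 0 < η ∧ ∃ n0 : ℕ, ∀ n ≥ n0,
      ∀ A : Matrix (Fin n) (Fin n) ℝ, A.det ≠ 0 → (upper - η) * n ≤ inv A → PowersOfTwo A δ) ∧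
    -- if the limit of `γ_n / n` exists
    ((∃ l : ℝ, Tendsto (fun n : ℕ => hermite n / n) atTop (𝓝 l)) →
      ∀ δ : ℝ, 0 < δ → ∃ η : ℝ, 0 < η ∧ ∃ n0 : ℕ, ∀ n ≥ n0,
        ∀ A : Matrix (Fin n) (Fin n) ℝ, A.det ≠ 0 → (1 - η) * hermite n ≤ inv A →
        PowersOfTwo A δ) := by
  have key : ∀ δ : ℝ, 0 < δ → ∃ η : ℝ, 0 < η ∧ ∃ n0 : ℕ, ∀ n ≥ n0,
      ∀ A : Matrix (Fin n) (Fin n) ℝ, A.det ≠ 0 → (upper - η) * n ≤ inv A → PowersOfTwo A δ := by
    intro δ hδ
    obtain ⟨η, hη, n0, h⟩ := two_groups limsup_facts.2 limsup_facts.1 hδ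
    refine ⟨η, hη, n0, fun n hn A hA hinv G _ _ hG ρ hρ χ => ?_⟩
    -- the twisted representation
    have hsq : ∀ g, (((χ g : ℤ) : ℝ)) * ((χ g : ℤ) : ℝ) = 1 := by
      intro g
      rcases Int.units_eq_one_or (χ g) with h1 | h1 <;> rw [h1] <;> norm_num
    let ρ' : G →* Matrix (Fin n) (Fin n) ℝ :=
      { toFun := fun g => ((χ g : ℤ) : ℝ) • ρ g
        map_one' := by simp
        map_mul' := by
          intro g h
          rw [map_mul, map_mul, smul_mul_smul_comm]
          push_cast
          rfl }
    have hρ' : ∀ g, IsAuto A (ρ' g) := by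
      intro g
      change IsAuto A (((χ g : ℤ) : ℝ) • ρ g)
      rcases Int.units_eq_one_or (χ g) with h1 | h1
      · rw [h1]
        simpa using hρ g
      · rw [h1]
        simpa using auto_neg (hρ g)
    have heq : fixed ρ' (⊤ : Subgroup G) = eigen ρ χ := by
      ext x
      constructor
      · intro hx g
        have h1 : (ρ' g).mulVec x = x := hx g (Subgroup.mem_top g)
        have h2 : (ρ' g).mulVec x = ((χ g : ℤ) : ℝ) • (ρ g).mulVec x := smul_mulVec _ _ _
        rw [h2] at h1
        calc (ρ g).mulVec x = (((χ g : ℤ) : ℝ) * ((χ g : ℤ) : ℝ)) • (ρ g).mulVec x := by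
              rw [hsq, one_smul]
          _ = ((χ g : ℤ) : ℝ) • (((χ g : ℤ) : ℝ) • (ρ g).mulVec x) := by rw [smul_smul]
          _ = _ := by rw [h1]
      · intro hx g _
        have h2 : (ρ' g).mulVec x = ((χ g : ℤ) : ℝ) • (ρ g).mulVec x := smul_mulVec _ _ _
        rw [h2, hx g, smul_smul, hsq, one_smul]
    have h3 := h n hn A hA hinv G hG ρ' hρ'
    rw [heq] at h3
    rcases h3 with h3 | ⟨h0, k, h3⟩
    · exact Or.inl h3
    · refine Or.inr ⟨⟨k, ?_⟩, h0⟩
      have e : (n : ℝ) / 2 ^ k = (1 / 2) ^ k * n := by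
        rw [div_pow, one_pow]
        ring
      rw [e]
      exact h3
  refine ⟨key, ?_⟩
  rintro ⟨l, hl⟩ δ hδ
  obtain ⟨η, hη, n0, h⟩ := key δ hδ
  obtain ⟨η', hη', n1, h'⟩ := optimal_of_limit (L := l) hl hη
  exact ⟨η', hη', max n0 n1, fun n hn A hA hAη => h n ((le_max_left _ _).trans hn) A hA
    (h' n ((le_max_right _ _).trans hn) A hAη)⟩

end Pool.Agent.Results.MP_ef2672_gt.FixedVectorsOfTwoGroups
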