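import Pool.Agent.U350.NE.Cor

/-!
# Dense lattices: the vectors that are nearly minimal contain nearly tight frames

`L = A ℤⁿ` is a lattice, `λ₁` the length of its shortest nonzero vectors (`minSq A = λ₁²`),
`gam A = λ₁² / det(L)^(2/n)` its Hermite invariant and `hermite n = γ_n` the supremum.

A lattice at which the Hermite invariant has a local maximum is eutactic (Voronoi): the form `|x|²` is
a combination with positive coefficients of the forms `(x · v)²`, `v` the vectors of length `λ₁`.
A lattice whose Hermite invariant is only close to `γ_n` may have only two vectors of length `λ₁`. We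
prove a robust form of eutaxy for such lattices, in every dimension and without any loss that depends
on the dimension.

* `NearlyTight A D T s`: the vectors `v` of `L` outside the finite set `D` that are shorter than `T λ₁`
  have weights `c ≥ 0` such that `∑ c (x · v)² ≤ (1 + s) |x|²` for all `x`, while the traces
  `∑ c |v|² = n` agree.
* (1) This is so if `(max 1 |D|)^(2/n) γ_n < T^(2 s / (1 + s)) γ(L)`.
* (2) So for all `s > 0`, `T > 1` there are `η, c > 0` such that in every dimension `n` the lattices with
  `γ(L) ≥ (1 - η) γ_n` have such frames outside every set of at most `exp(c n)` vectors.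
* (3) The same for all lattices with `γ(L) ≥ n / (2 π e)` (the believed size of `γ_n`) in large dimensions
  if `T^(2 s / (1 + s)) > 2 e / π`.
* (4) A robust form of a part of perfection: for every subspace of dimension `μ n` (with the orthogonal
  projection `P`) such lattices have exponentially many vectors `v` shorter than `T λ₁` with
  `|P v|² < ρ |v|²`, for every `ρ` above an explicit number less than `μ`, the average of `|P v|² / |v|²` for
  a tight frame. (Take the orthogonal complement for vectors with a large projection.)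

Proof. If `Q` is symmetric with trace at most `0` and eigenvalues at least `-1`, then `exp(t Q)` does not
increase the determinant, lengthens the vectors `v` with `v · Q v ≥ s |v|²` by the factor `exp(t s)`
(Jensen), and shortens no vector by more than the factor `exp(-t)`. The lattice `exp(t Q) L` has a
sublattice of small index without the remaining short vectors (starting library), so these are
many. The weights are found by separating the convex hull of the forms `(x · v)² / |v|²` from the
convex set of all forms that are at most `(1 + s) |x|² / n`.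
-/

set_option autoImplicit false

open Matrix Filter

namespace Pool.Agent.Results.MP_ef2672_gt.NearlyTightFrames

open Pool.Agent.H160R3.Herm Pool.Agent.TH220.HG Pool.Agent.U350.NE

theorem result :
    (∀ n : ℕ, 0 < n → ∀ A : Matrix (Fin n) (Fin n) ℝ, A.det ≠ 0 → ∀ s T : ℝ, 0 < s → 1 < T →
      ∀ D : Finset (Fin n → ℤ),
        (max 1 (D.card : ℝ)) ^ ((2 : ℝ) / n) * hermite n < T ^ (2 * s / (1 + s)) * gam A →
          NearlyTight A D T s) ∧
    (∀ s T : ℝ, 0 < s → 1 < T → ∃ η c : ℝ, 0 < η ∧ η < 1 ∧ 0 < c ∧ ∀ n : ℕ, 0 < n →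
      ∀ A : Matrix (Fin n) (Fin n) ℝ, A.det ≠ 0 → (1 - η) * hermite n ≤ gam A →
        ∀ D : Finset (Fin n → ℤ), (D.card : ℝ) ≤ Real.exp (c * n) → NearlyTight A D T s) ∧
    (∀ s T : ℝ, 0 < s → 1 < T → 2 * Real.exp 1 / Real.pi < T ^ (2 * s / (1 + s)) →
      ∃ c : ℝ, 0 < c ∧ ∀ᶠ n : ℕ in atTop, ∀ A : Matrix (Fin n) (Fin n) ℝ, A.det ≠ 0 →
        n / (2 * Real.pi * Real.exp 1) ≤ gam A → ∀ D : Finset (Fin n → ℤ),
          (D.card : ℝ) ≤ Real.exp (c * n) → NearlyTight A D T s) ∧
    (∀ μ T : ℝ, 0 < μ → μ < 1 → 1 < T →
      (1 - (1 / T) ^ 2) / (T ^ (2 * (1 - μ) / μ) - (1 / T) ^ 2) < μ ∧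
      ∀ ρ : ℝ, (1 - (1 / T) ^ 2) / (T ^ (2 * (1 - μ) / μ) - (1 / T) ^ 2) < ρ →
        ∃ η c : ℝ, 0 < η ∧ η < 1 ∧ 0 < c ∧ ∀ n : ℕ, 0 < n → ∀ A : Matrix (Fin n) (Fin n) ℝ,
          A.det ≠ 0 → (1 - η) * hermite n ≤ gam A → ∀ P : Matrix (Fin n) (Fin n) ℝ, P.IsSymm →
            P * P = P → P.trace = μ * n →
              Real.exp (c * n) ≤ ({w : Fin n → ℤ | w ≠ 0 ∧ nsq A w < T ^ 2 * minSq A ∧
                ∑ i, (P *ᵥ (A *ᵥ fun j => (w j : ℝ))) i ^ 2 < ρ * nsq A w}.ncard : ℝ)) := by
  refine ⟨fun n hn A hA s T hs hT D h => tight hn hA hs hT D h, fun s T hs hT => tight_exp hs hT,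
    fun s T hs hT h => tight_believed hs hT h, fun μ T h0 h1 hT => ⟨?_, fun ρ hρ => ?_⟩⟩
  · rw [← thr_one]
    exact thr_lt h0 h1 hT
  · rw [← thr_one] at hρ
    exact proj_exp h0 h1 hT hρ

end Pool.Agent.Results.MP_ef2672_gt.NearlyTightFrames
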