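import Pool.Agent.U837.TP.Asy

/-!
# Hermite's constant and tensor products of lattices

For a lattice `C ℤᴺ` let `inv C = λ₁² / det^(2/N)` be its Hermite invariant, so that `γ_N` is the
supremum of `inv C`. If the lattice has a sublattice of index `k` that is isometric to the tensor
product of lattices of dimensions `m` and `n`, `N = m n`, then `inv C ≤ k^(2/N) γ_m γ_n`.

Hence no tensor product of lattices of dimensions at least two, and no lattice that contains one with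
index at most `1.0004^N`, reaches the believed value `N / (2 π e)` of `γ_N` in large dimensions, and if
the limit of `γ_n / n` exists, then such sublattices of asymptotically optimal lattices have index at
least `(3^(1/4) - o(1))^N`.

Proof. Products of shortest vectors, `γ_2 ≤ 2 / √3`, `γ_n / n ≤ 13/25` for `n ≥ 3` (volumes of balls),
and the starting result `limsup γ_n / n ≤ 1 / π²`; `1 / (√3 π²) = 0.058498 < 1 / (2 π e) = 0.058550`.
-/

set_option autoImplicit false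

namespace Pool.Agent.Results.MP_ef2672_gt.TensorProducts

open Filter
open scoped Topology
open Pool.Agent.H160R3.Herm (hermite)
open Pool.Agent.R834.HA (inv)
open Pool.Agent.U837.TP

theorem num_two : (1.0004 : ℝ) ^ 2 * (1 / √3 * (1 / Real.pi ^ 2)) < 1 / (2 * Real.pi * Real.exp 1) := by
  have h1 := Real.pi_gt_d6
  have h2 := Real.exp_one_lt_d9
  have h3 : (1.7320508 : ℝ) < √3 := by
    rw [Real.lt_sqrt (by norm_num)]
    norm_num
  have he := Real.exp_pos 1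
  have hpi := Real.pi_pos
  have h4 : (5.441396 : ℝ) < √3 * Real.pi := by
    have := mul_lt_mul'' h3 h1 (by norm_num) (by norm_num)
    linarith
  have e : (1.0004 : ℝ) ^ 2 * (1 / √3 * (1 / Real.pi ^ 2)) = 1.0004 ^ 2 / (√3 * Real.pi ^ 2) := by
    field_simp
  rw [e, div_lt_div_iff₀ (by positivity) (by positivity)]
  have h5 : (1.0004 : ℝ) ^ 2 * (2 * Real.exp 1) < √3 * Real.pi := by
    refine lt_trans ?_ h4
    nlinarith
  calc (1.0004 : ℝ) ^ 2 * (2 * Real.pi * Real.exp 1) = Real.pi * (1.0004 ^ 2 * (2 * Real.exp 1)) := by ring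
    _ < Real.pi * (√3 * Real.pi) := mul_lt_mul_of_pos_left h5 hpi
    _ = 1 * (√3 * Real.pi ^ 2) := by ring

theorem num_three : (1.054 : ℝ) ^ 2 * (13 / 25 * (1 / Real.pi ^ 2)) < 1 / (2 * Real.pi * Real.exp 1) := by
  have h1 := Real.pi_gt_d6
  have h2 := Real.exp_one_lt_d9
  have he := Real.exp_pos 1
  have hpi := Real.pi_pos
  have e : (1.054 : ℝ) ^ 2 * (13 / 25 * (1 / Real.pi ^ 2)) = 1.054 ^ 2 * (13 / 25) / Real.pi ^ 2 := by
    field_simp
  rw [e, div_lt_div_iff₀ (by positivity) (by positivity)]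
  have h5 : (1.054 : ℝ) ^ 2 * (13 / 25) * (2 * Real.exp 1) < Real.pi := by
    refine lt_trans ?_ h1
    nlinarith
  calc (1.054 : ℝ) ^ 2 * (13 / 25) * (2 * Real.pi * Real.exp 1) =
        Real.pi * (1.054 ^ 2 * (13 / 25) * (2 * Real.exp 1)) := by ring
    _ < Real.pi * Real.pi := mul_lt_mul_of_pos_left h5 hpi
    _ = 1 * Real.pi ^ 2 := by ring

theorem num_large : (2.388 : ℝ) ^ 2 * ((1 / Real.pi ^ 2) * (1 / Real.pi ^ 2)) <
    1 / (2 * Real.pi * Real.exp 1) := by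
  have h1 := Real.pi_gt_d6
  have h2 := Real.exp_one_lt_d9
  have he := Real.exp_pos 1
  have hpi := Real.pi_pos
  have e : (2.388 : ℝ) ^ 2 * ((1 / Real.pi ^ 2) * (1 / Real.pi ^ 2)) = 2.388 ^ 2 / Real.pi ^ 4 := by
    field_simp
  rw [e, div_lt_div_iff₀ (by positivity) (by positivity)]
  have h5 : (2.388 : ℝ) ^ 2 * (2 * Real.exp 1) < Real.pi ^ 3 := by
    have : (3.141592 : ℝ) ^ 3 < Real.pi ^ 3 := pow_lt_pow_left₀ h1 (by norm_num) (by norm_num)
    refine lt_trans ?_ this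
    nlinarith
  calc (2.388 : ℝ) ^ 2 * (2 * Real.pi * Real.exp 1) =
        Real.pi * (2.388 ^ 2 * (2 * Real.exp 1)) := by ring
    _ < Real.pi * Real.pi ^ 3 := mul_lt_mul_of_pos_left h5 hpi
    _ = 1 * Real.pi ^ 4 := by ring

/-- both dimensions large -/
theorem both_large : ∃ s : ℕ, ∀ m n : ℕ, s ≤ m → s ≤ n →
    ∀ (C : Matrix (Fin (m * n)) (Fin (m * n)) ℝ) (k : ℝ), C.det ≠ 0 → HasTensor C k →
      k ≤ 2.388 ^ (m * n) → inv C < ((m * n : ℕ) : ℝ) / (2 * Real.pi * Real.exp 1) := by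
  have hpi := Real.pi_pos
  have hlim : Tendsto (fun δ : ℝ => (2.388 : ℝ) ^ 2 * ((1 / Real.pi ^ 2 + δ) * (1 / Real.pi ^ 2)))
      (𝓝[>] 0) (𝓝 ((2.388 : ℝ) ^ 2 * ((1 / Real.pi ^ 2 + 0) * (1 / Real.pi ^ 2)))) := by
    apply tendsto_nhdsWithin_of_tendsto_nhds
    have : Continuous fun δ : ℝ =>
        (2.388 : ℝ) ^ 2 * ((1 / Real.pi ^ 2 + δ) * (1 / Real.pi ^ 2)) := by fun_prop
    exact this.tendsto 0
  rw [add_zero] at hlim
  obtain ⟨δ, h1, h2⟩ := ((hlim.eventually_lt_const num_large).and self_mem_nhdsWithin).exists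
  have hδ : (0 : ℝ) < δ := h2
  obtain ⟨s0, hs0⟩ := eventually_atTop.1 (ev_upper hδ)
  obtain ⟨N0, hN0⟩ := numeric (c := 1 / Real.pi ^ 2 + δ) (q := 2.388) (s := max s0 1)
    (lt_of_lt_of_le one_pos (le_max_right _ _)) (by positivity)
    (fun n hn => (hs0 n ((le_max_left _ _).trans hn)).trans (by linarith [upper_le]))
    (by norm_num) h1
  refine ⟨max (max s0 1) N0, fun m n hm hn C k hC h hk => ?_⟩
  have hm1 : 1 ≤ m := (le_max_right s0 1).trans ((le_max_left _ _).trans hm)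
  have hN : N0 ≤ m * n :=
    ((le_max_right _ _).trans hn).trans (Nat.le_mul_of_pos_left n (by omega))
  exact hN0 m n ((le_max_left _ _).trans hm) ((le_max_left _ _).trans hn) hN C k hC h hk

/-- Tensor products of lattices and Hermite's constant. Here `HasTensor C k` (with the dimensions
`m`, `n`): the lattice `C ℤᴺ`, `N = m n`, has a sublattice of index `k` that is isometric to a tensor
product of a lattice of dimension `m` and one of dimension `n`. -/
theorem result :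
    -- (1) all dimensions
    (∀ m n : ℕ, 0 < m → 0 < n → ∀ (C : Matrix (Fin (m * n)) (Fin (m * n)) ℝ) (k : ℝ),
      C.det ≠ 0 → HasTensor C k → 1 ≤ k ∧
        inv C ≤ k ^ ((2 : ℝ) / ((m * n : ℕ) : ℝ)) * (hermite m * hermite n)) ∧
    -- (2) large dimensions `m n`, with `m, n ≥ 2`
    upper ≤ 1 / Real.pi ^ 2 ∧
    (∀ ε : ℝ, 0 < ε → ∃ N0 : ℕ, ∀ m n : ℕ, 2 ≤ m → 2 ≤ n → N0 ≤ m * n →
      ∀ (C : Matrix (Fin (m * n)) (Fin (m * n)) ℝ) (k : ℝ), C.det ≠ 0 → HasTensor C k →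
        inv C ≤ k ^ ((2 : ℝ) / ((m * n : ℕ) : ℝ)) * (1 / √3 * upper + ε) * ((m * n : ℕ) : ℝ)) ∧
    -- (3) below the believed value
    (∃ N0 : ℕ, ∀ m n : ℕ, N0 ≤ m * n →
      ∀ (C : Matrix (Fin (m * n)) (Fin (m * n)) ℝ) (k : ℝ), C.det ≠ 0 → HasTensor C k →
        (2 ≤ m ∧ 2 ≤ n ∧ k ≤ 1.0004 ^ (m * n)) ∨ (3 ≤ m ∧ 3 ≤ n ∧ k ≤ 1.054 ^ (m * n)) ∨
          (N0 ≤ m ∧ N0 ≤ n ∧ k ≤ 2.388 ^ (m * n)) →
        inv C < ((m * n : ℕ) : ℝ) / (2 * Real.pi * Real.exp 1)) ∧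
    -- (4) near-optimal lattices
    (∀ κ ε : ℝ, 0 < κ → 0 < ε → ∃ N0 : ℕ, ∀ m n : ℕ, 2 ≤ m → 2 ≤ n → N0 ≤ m * n →
      ∀ (C : Matrix (Fin (m * n)) (Fin (m * n)) ℝ) (k : ℝ), C.det ≠ 0 → HasTensor C k →
        κ * hermite (m * n) ≤ inv C →
        √3 * κ * lower / upper - ε ≤ k ^ ((2 : ℝ) / ((m * n : ℕ) : ℝ))) ∧
    -- (5) if the limit exists
    ((∃ L : ℝ, Tendsto (fun n : ℕ => hermite n / n) atTop (𝓝 L)) → ∀ δ : ℝ, 0 < δ →
      ∃ η : ℝ, 0 < η ∧ ∃ N0 : ℕ, ∀ m n : ℕ, 2 ≤ m → 2 ≤ n → N0 ≤ m * n →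
        ∀ (C : Matrix (Fin (m * n)) (Fin (m * n)) ℝ) (k : ℝ), C.det ≠ 0 → HasTensor C k →
          (1 - η) * hermite (m * n) ≤ inv C →
          √3 - δ ≤ k ^ ((2 : ℝ) / ((m * n : ℕ) : ℝ))) := by
  refine ⟨?_, upper_le, fun ε hε => asym (by norm_num) (by positivity) (fun n hn => ratio_le hn) hε,
    ?_, fun κ ε hκ hε => near hκ hε, ?_⟩
  · intro m n hm hn C k hC h
    refine ⟨k_ge_one hm hn hC h, ?_⟩
    have hk := k_ge_one hm hn hC h
    refine (inv_le_ratio hm hn hC h).trans (le_of_eq ?_)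
    rw [hermite_ratio hm, hermite_ratio hn]
    push_cast
    ring
  · obtain ⟨N1, h1⟩ := numeric (s := 2) (by norm_num) (by positivity) (fun n hn => ratio_le hn)
      (q := 1.0004) (by norm_num) num_two
    obtain ⟨N2, h2⟩ := numeric (s := 3) (by norm_num) (by norm_num)
      (fun n hn => ratio_three hn) (q := 1.054) (by norm_num) num_three
    obtain ⟨N3, h3⟩ := both_large
    refine ⟨max (max N1 N2) N3, fun m n hN C k hC h hk => ?_⟩
    have g1 : N1 ≤ m * n := ((le_max_left _ _).trans (le_max_left _ _)).trans hN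
    have g2 : N2 ≤ m * n := ((le_max_right _ _).trans (le_max_left _ _)).trans hN
    rcases hk with ⟨hm, hn, hk⟩ | ⟨hm, hn, hk⟩ | ⟨hm, hn, hk⟩
    · exact h1 m n hm hn g1 C k hC h hk
    · exact h2 m n hm hn g2 C k hC h hk
    · exact h3 m n ((le_max_right _ _).trans hm) ((le_max_right _ _).trans hn) C k hC h hk
  · rintro ⟨L, hL⟩ δ hδ
    exact of_limit hL hδ

end Pool.Agent.Results.MP_ef2672_gt.TensorProducts
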