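import Pool.Agent.U166.HC.Fin

/-!
# Dense lattices: a gap for the traces of the automorphisms of any order

`L = A ℤⁿ` is a lattice, `inv A = λ₁(L)² / det(L)^(2/n)` its Hermite invariant, `hermite n = γ_n`.

Let `F` be an endomorphism of `L` whose kernel is orthogonal to its image (for example `1 - Q` for an
automorphism `Q`, or a symmetric endomorphism), `b` its rank and `‖F‖²` the sum of the squares of its
entries. The absolute value `k` of the determinant of `F` on its image is the index of the sublattice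
`ker F ⊕ F L`, and by the inequality between the arithmetic and the geometric mean `k² ≤ (‖F‖² / b) ^ b`.
Hence `inv A ^ n ≤ (‖F‖² / b) ^ b γ_{n-b} ^ (n-b) γ_b ^ b`. For `F = 1 - Q` one has
`‖F‖² = 2 (n - tr Q)`, and nothing depends on the order of `Q`.

Consider the lattices with `inv A ≥ (limsup γ_m / m - o(1)) n`. They exist for infinitely many `n`, and
if the limit of `γ_n / n` exists then they are all the asymptotically optimal lattices. In these lattices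
an endomorphism with `‖F‖² < (1 - δ) n` has rank `o(n)`; an automorphism of any order moves `o(n)`
dimensions, or at least `n / 2 - o(n)` dimensions and then has a trace of at most `n / 2 + o(n)`; if it
fixes at least `47 n / 100` dimensions then it is an involution up to `o(n)` dimensions; and the
automorphisms of a finite group which move `o(n)` dimensions form a normal subgroup which fixes
`n - o(n)` dimensions, while the subgroups not contained in it fix at most `n / 2 + o(n)` dimensions,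
whatever the order of the group is.
-/

set_option autoImplicit false

open Filter Matrix Topology

namespace Pool.Agent.Results.MP_ef2672_gt.TracesOfAutomorphisms

open Pool.Agent.H160R3.Herm (hermite)
open Pool.Agent.R834.HA (inv SplitsInto IsAuto)

/-- the upper limit of `γ_n / n` -/
noncomputable def upper : ℝ := limsup (fun n : ℕ => hermite n / n) atTop

/-- the lower limit of `γ_n / n` -/
noncomputable def lower : ℝ := liminf (fun n : ℕ => hermite n / n) atTop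

/-- the sum of the squares of the entries -/
noncomputable def sumSq {n : ℕ} (F : Matrix (Fin n) (Fin n) ℝ) : ℝ := ∑ i, ∑ j, F i j ^ 2

/-- `F` is an endomorphism of the lattice `A ℤⁿ`, and the kernel of `F` is orthogonal to its image. -/
def NormalEndo {n : ℕ} (A F : Matrix (Fin n) (Fin n) ℝ) : Prop :=
  (∃ U : Matrix (Fin n) (Fin n) ℤ, F * A = A * U.map (fun z : ℤ => (z : ℝ))) ∧
    ∀ x, F.mulVec x = 0 → Fᵀ.mulVec x = 0

/-- the vectors which are fixed by all elements of `H` -/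
def fixed {n : ℕ} {G : Type} [Group G] (ρ : G →* Matrix (Fin n) (Fin n) ℝ) (H : Subgroup G) :
    Submodule ℝ (Fin n → ℝ) where
  carrier := {x | ∀ g ∈ H, (ρ g).mulVec x = x}
  add_mem' := by
    intro x y hx hy g hg
    rw [mulVec_add, hx g hg, hy g hg]
  zero_mem' := fun g _ => mulVec_zero _
  smul_mem' := by
    intro c x hx g hg
    rw [mulVec_smul, hx g hg]

/-- (1) the exact inequality for the lattice `A ℤⁿ` -/
def Exact {n : ℕ} (A : Matrix (Fin n) (Fin n) ℝ) : Prop :=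
  (∀ F, NormalEndo A F → (F.rank : ℝ) ≤ sumSq F ∧
    (∃ k : ℝ, 0 < k ∧ SplitsInto A F.rank k ∧ k ^ 2 ≤ (sumSq F / F.rank) ^ F.rank) ∧
    inv A ^ n ≤ (sumSq F / F.rank) ^ F.rank *
      (hermite (n - F.rank) ^ (n - F.rank) * hermite F.rank ^ F.rank)) ∧
  ∀ Q, IsAuto A Q → NormalEndo A (1 - Q) ∧ sumSq (1 - Q) = 2 * (n - Q.trace)

/-- the entropy inequality with the constant `c` -/
def Entropy {n : ℕ} (A : Matrix (Fin n) (Fin n) ℝ) (c : ℝ) : Prop :=
  ∀ F, NormalEndo A F → Real.binEntropy ((F.rank : ℝ) / n) ≤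
    c + F.rank / n * Real.log (sumSq F / F.rank)

/-- endomorphisms with small entries have small rank, with the constant `c` -/
def Small {n : ℕ} (A : Matrix (Fin n) (Fin n) ℝ) (c : ℝ) : Prop :=
  ∀ F, NormalEndo A F → 0 < F.rank → F.rank * Real.log (n / sumSq F) ≤ c * n

/-- (4) the gap, for endomorphisms and for automorphisms of any order -/
def Gap {n : ℕ} (A : Matrix (Fin n) (Fin n) ℝ) (δ : ℝ) : Prop :=
  (∀ F, NormalEndo A F → (F.rank : ℝ) ≤ δ * n ∨ (1 - δ) * n ≤ sumSq F) ∧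
  (∀ Q, IsAuto A Q →
    (((1 - Q).rank : ℝ) ≤ δ * n ∧ (1 - δ) * n ≤ Q.trace) ∨
    ((1 / 2 - δ) * n ≤ (1 - Q).rank ∧ Q.trace ≤ (1 / 2 + δ) * n)) ∧
  ∀ Q, IsAuto A Q → ((1 - Q).rank : ℝ) ≤ 53 / 100 * n →
    ((1 - Q ^ 2).rank : ℝ) ≤ δ * n ∧
      (((1 - Q).rank : ℝ) ≤ δ * n ∨ |((1 - Q).rank : ℝ) - n / 2| ≤ δ * n)

/-- (4) the gap for groups of automorphisms -/
def GroupGap {n : ℕ} (A : Matrix (Fin n) (Fin n) ℝ) (δ : ℝ) : Prop :=
  ∀ (G : Type) [Group G] [Finite G] (ρ : G →* Matrix (Fin n) (Fin n) ℝ), (∀ g, IsAuto A (ρ g)) →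
    ∃ N : Subgroup G, N.Normal ∧ (∀ g ∈ N, ((1 - ρ g).rank : ℝ) ≤ δ * n) ∧
      (∀ g ∉ N, (1 / 2 - δ) * n ≤ (1 - ρ g).rank ∧ (ρ g).trace ≤ (1 / 2 + δ) * n) ∧
      ∀ H : Subgroup G, (H ≤ N → (1 - δ) * n ≤ Module.finrank ℝ (fixed ρ H)) ∧
        (¬ H ≤ N → (Module.finrank ℝ (fixed ρ H) : ℝ) ≤ (1 / 2 + δ) * n)

theorem hs_eq {n : ℕ} (F : Matrix (Fin n) (Fin n) ℝ) : Pool.Agent.U166.HC.hs F = sumSq F := by
  unfold Pool.Agent.U166.HC.hs sumSq Matrix.trace
  rw [Finset.sum_comm]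
  refine Finset.sum_congr rfl fun j _ => ?_
  rw [diag_apply, mul_apply]
  refine Finset.sum_congr rfl fun i _ => ?_
  rw [transpose_apply, sq]

open Pool.Agent.R834.HA Pool.Agent.U166.HC in
theorem gap_upper (δ : ℝ) (hδ : 0 < δ) : ∃ η : ℝ, 0 < η ∧ ∃ n0 : ℕ, ∀ n ≥ n0,
    ∀ A : Matrix (Fin n) (Fin n) ℝ, A.det ≠ 0 → (upper - η) * n ≤ inv A →
    Gap A δ ∧ GroupGap A δ := by
  set δ' := min (δ / 2) (1 / 20) with hδ'
  have hδ0 : 0 < δ' := lt_min (by positivity) (by norm_num)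
  have hδ1 : δ' ≤ 1 / 20 := min_le_right _ _
  have hδ2 : 2 * δ' ≤ δ := by
    have := min_le_left (δ / 2) (1 / 20 : ℝ)
    linarith
  obtain ⟨c, hc, hgap⟩ := gap hδ0 hδ1
  obtain ⟨η, hη, -, n0, hn0, h⟩ := ent_of_upper limsup_facts.2 limsup_facts.1 hc
  refine ⟨η, hη, n0, fun n hn A hA hAη => ?_⟩
  have hnpos := lt_of_lt_of_le hn0 hn
  have hn' : (0 : ℝ) < n := by exact_mod_cast hnpos
  obtain ⟨h1, h2, h3⟩ := hgap n hnpos A hA (h n hn A hA hAη)
  have e0 : δ' * n ≤ δ * n := mul_le_mul_of_nonneg_right (by linarith) hn'.le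
  have e1 : (1 - δ) * n ≤ (1 - δ') * n := mul_le_mul_of_nonneg_right (by linarith) hn'.le
  have e2 : (1 - δ) * n ≤ (1 - 2 * δ') * n := mul_le_mul_of_nonneg_right (by linarith) hn'.le
  have e3 : (1 / 2 - δ) * n ≤ (1 / 2 - δ') * n := mul_le_mul_of_nonneg_right (by linarith) hn'.le
  have e4 : (1 / 2 + δ') * n ≤ (1 / 2 + δ) * n := mul_le_mul_of_nonneg_right (by linarith) hn'.le
  have e5 : 2 * δ' * n ≤ δ * n := mul_le_mul_of_nonneg_right (by linarith) hn'.le
  refine ⟨⟨fun F hF => ?_, fun Q hQ => ?_, fun Q hQ h53 => ?_⟩, ?_⟩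
  · rw [← hs_eq]
    rcases h1 F hF with h4 | h4
    · exact Or.inl (h4.trans e0)
    · exact Or.inr (e1.trans h4)
  · rcases h2 Q hQ with ⟨h4, h5⟩ | ⟨h4, h5⟩
    · exact Or.inl ⟨h4.trans e0, e2.trans h5⟩
    · exact Or.inr ⟨e3.trans h4, h5.trans e4⟩
  · have h4 := h3 Q hQ h53
    rw [sq]
    refine ⟨h4.trans e0, ?_⟩
    rcases near_half hnpos hδ0 hδ1 h2 hQ h53 h4 with h5 | h5
    · exact Or.inl (h5.trans e0)
    · exact Or.inr (h5.trans e5)
  · intro G _ _ ρ hρ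
    obtain ⟨N, hN, hin, hout, hH⟩ := groups hnpos hA hδ0 hδ1 h2 ρ hρ
    refine ⟨N, hN, fun g hg => (hin g hg).trans e0,
      fun g hg => ⟨e3.trans (hout g hg).1, (hout g hg).2.trans e4⟩, fun H => ⟨fun h4 => ?_,
        fun h4 => ?_⟩⟩
    · exact e2.trans ((hH H).1 h4)
    · exact ((hH H).2 h4).trans e4

open Pool.Agent.R834.HA Pool.Agent.U166.HC in
theorem result :
    -- (1)
    (∀ n : ℕ, 0 < n → ∀ A : Matrix (Fin n) (Fin n) ℝ, A.det ≠ 0 → Exact A) ∧
    -- (2) near-optimal lattices of large dimension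
    (∀ ε : ℝ, 0 < ε → ∀ κ : ℝ, 0 < κ → ∃ n0 : ℕ, ∀ n ≥ n0,
      ∀ A : Matrix (Fin n) (Fin n) ℝ, A.det ≠ 0 → κ * hermite n ≤ inv A →
      Entropy A (Real.log (upper / (κ * lower)) + ε) ∧
      Small A (Real.log (upper / (κ * lower)) + ε)) ∧
    -- (3) lattices with `inv A ≥ n / (2 π e)` of large dimension
    (∃ n0 : ℕ, ∀ n ≥ n0, ∀ A : Matrix (Fin n) (Fin n) ℝ, A.det ≠ 0 →
      n / (2 * Real.pi * Real.exp 1) ≤ inv A →
      Entropy A (397 / 500 * Real.log 2) ∧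
      ∀ Q, IsAuto A Q → 2 * (1 - Q).rank = n → (2 : ℝ) ^ (-(397 / 250) : ℝ) * n ≤ n - Q.trace) ∧
    -- (4) lattices with an invariant close to the upper limit
    (∀ δ : ℝ, 0 < δ → ∃ η : ℝ, 0 < η ∧ ∃ n0 : ℕ, ∀ n ≥ n0,
      ∀ A : Matrix (Fin n) (Fin n) ℝ, A.det ≠ 0 → (upper - η) * n ≤ inv A →
      Gap A δ ∧ GroupGap A δ) ∧
    -- (5) if the limit of `γ_n / n` exists
    ((∃ l : ℝ, Tendsto (fun n : ℕ => hermite n / n) atTop (𝓝 l)) →
      ∀ δ : ℝ, 0 < δ → ∃ η : ℝ, 0 < η ∧ ∃ n0 : ℕ, ∀ n ≥ n0,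
        ∀ A : Matrix (Fin n) (Fin n) ℝ, A.det ≠ 0 → (1 - η) * hermite n ≤ inv A →
        Gap A δ ∧ GroupGap A δ) := by
  refine ⟨?_, ?_, ?_, gap_upper, ?_⟩
  · intro n hn A hA
    refine ⟨fun F hF => ?_, fun Q hQ => ⟨auto_normal hQ, ?_⟩⟩
    · obtain ⟨k, hk, hs1, hk2⟩ := split_hs hA hF
      rw [← hs_eq]
      refine ⟨rank_le hA hF, ⟨k, hk, hs1, hk2⟩, ?_⟩
      have h1 := (hs1.ineq hn hA).2.2
      refine h1.trans (mul_le_mul_of_nonneg_right hk2 ?_)
      exact (mul_pos (pow_self_pos _) (pow_self_pos _)).le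
    · rw [← hs_eq]
      exact auto_hs hQ
  · intro ε hε κ hκ
    obtain ⟨n0, hn0, h0⟩ := near_split hε hκ
    refine ⟨n0, fun n hn A hA hAκ => ?_⟩
    have h1 : EntropyBound A (Real.log (upper / (κ * lower)) + ε) := h0 n hn A hA hAκ
    have hnpos := lt_of_lt_of_le hn0 hn
    refine ⟨fun F hF => ?_, fun F hF hr => ?_⟩
    · rw [← hs_eq]
      exact entropy_hs hnpos hA h1 hF
    · rw [← hs_eq]
      exact log_hs hnpos hA h1 hF hr
  · obtain ⟨n0, hn0, h0⟩ := numeric_split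
    refine ⟨n0, fun n hn A hA hAκ => ?_⟩
    have h1 := h0 n hn A hA hAκ
    have hnpos := lt_of_lt_of_le hn0 hn
    refine ⟨fun F hF => ?_, fun Q hQ hr => middle hnpos hA h1 hQ hr⟩
    rw [← hs_eq]
    exact entropy_hs hnpos hA h1 hF
  · rintro ⟨l, hl⟩ δ hδ
    obtain ⟨η, hη, n0, h⟩ := gap_upper δ hδ
    obtain ⟨η', hη', n1, h'⟩ := optimal_of_limit (L := l) hl hη
    exact ⟨η', hη', max n0 n1, fun n hn A hA hAη => h n ((le_max_left _ _).trans hn) A hA
      (h' n ((le_max_right _ _).trans hn) A hAη)⟩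

end Pool.Agent.Results.MP_ef2672_gt.TracesOfAutomorphisms
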